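import Pool.Agent.Helper94.FB.Codazzi

/-!
# RS END-3 OpenIn: the surface is open in the zero set of a function with nonzero gradient

If `G` vanishes on `surf F` and some partial derivative of `G` at `z ∈ inn F` is not zero, then near `z` the zeros of
`G` are zeros of `F`: both functions are strictly monotone along the lines in the direction of the normal at `z`, and
on each such line near `z` there is a zero of `F`.
-/

set_option autoImplicit false

open MeasureTheory Filter
open scoped ContDiff Topology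

namespace Pool.Agent.Helper99.RS

open Pool.Agent.Helper78.FB

/-- No two zeros on a segment on which the derivative does not vanish. -/
private theorem no_two_zeros {G : E → ℝ} (hG : ContDiff ℝ ∞ G) (x n : E) {a b : ℝ} (hab : a < b)
    (ha : G (x + a • n) = 0) (hb : G (x + b • n) = 0)
    (hne : ∀ t, a < t → t < b → ∑ k, n k * pd k G (x + t • n) ≠ 0) : False := by
  have hγ : ∀ t : ℝ, HasDerivAt (fun s : ℝ => x + s • n) n t := by
    intro t
    have h1 : HasDerivAt (fun s : ℝ => s • n) ((1 : ℝ) • n) t := (hasDerivAt_id t).smul_const n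
    rw [one_smul] at h1
    exact h1.const_add x
  have hd : ∀ t : ℝ, HasDerivAt (fun s : ℝ => G (x + s • n)) (∑ k, n k * pd k G (x + t • n)) t :=
    fun t => hasDerivAt_comp hG (fun s : ℝ => x + s • n) n t (hγ t)
  obtain ⟨c, hc, hc0⟩ := exists_hasDerivAt_eq_zero (f := fun s : ℝ => G (x + s • n))
    (f' := fun t => ∑ k, n k * pd k G (x + t • n)) hab
    (fun t _ => (hd t).continuousAt.continuousWithinAt)
    (by simp only [ha, hb]) (fun t _ => hd t)
  exact hne c hc.1 hc.2 hc0

theorem open_in {F : E → ℝ} (h : FBMS F) {G : E → ℝ} (hG : ContDiff ℝ ∞ G) (h0 : ∀ y ∈ surf F, G y = 0)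
    {z : E} (hz : z ∈ inn F) (hne : ∃ k, pd k G z ≠ 0) :
    ∃ e > 0, ∀ x ∈ Metric.ball z e, G x = 0 → F x = 0 := by
  have hF := h.smooth
  have hzs : z ∈ surf F := ⟨hz.1.le, hz.2⟩
  set n : E := WithLp.toLp 2 (fun k => pd k F z) with hn
  have hnk : ∀ k, n k = pd k F z := fun k => rfl
  -- the derivatives in the direction `n`
  set A : E → ℝ := fun y => ∑ k, n k * pd k F y with hA
  set B : E → ℝ := fun y => ∑ k, n k * pd k G y with hB
  have hAc : Continuous A := continuous_finset_sum _ fun k _ =>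
    continuous_const.mul (contDiff_pd k hF).continuous
  have hBc : Continuous B := continuous_finset_sum _ fun k _ =>
    continuous_const.mul (contDiff_pd k hG).continuous
  have hAz : A z = 1 := by
    rw [← grad_sq h hzs]
    exact Finset.sum_congr rfl fun k _ => by rw [hnk]; ring
  have hBz : B z ≠ 0 := by
    obtain ⟨c, hc⟩ := grad_par h hG hz Set.univ isOpen_univ trivial
      (fun y hy _ => h0 y ⟨hy.1.le, hy.2⟩)
    have h1 : B z = c := by
      have h2 : B z = c * ∑ k, pd k F z ^ 2 := by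
        rw [Finset.mul_sum]
        exact Finset.sum_congr rfl fun k _ => by rw [hnk, hc k]; ring
      rw [h2, grad_sq h hzs, mul_one]
    obtain ⟨k, hk⟩ := hne
    intro h2
    rw [h1] at h2
    exact hk (by rw [hc k, h2, zero_mul])
  obtain ⟨r, hr, hrs⟩ : ∃ r > 0, ∀ y ∈ Metric.ball z r, 1 / 2 < A y ∧ B y ≠ 0 ∧ ‖y‖ < 1 := by
    have h1 : ∀ᶠ y in 𝓝 z, 1 / 2 < A y :=
      hAc.continuousAt.eventually (lt_mem_nhds (by rw [hAz]; norm_num))
    have h2 : ∀ᶠ y in 𝓝 z, B y ≠ 0 := hBc.continuousAt.eventually_ne hBz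
    have h3 : ∀ᶠ y in 𝓝 z, ‖y‖ < 1 :=
      continuous_norm.continuousAt.eventually (gt_mem_nhds hz.1)
    exact Metric.eventually_nhds_iff_ball.1 (h1.and (h2.and h3))
  set d : ℝ := r / (2 * (‖n‖ + 1)) with hd
  have hn1 : 0 < ‖n‖ + 1 := by positivity
  have hdpos : 0 < d := by positivity
  have hdn : d * ‖n‖ < r / 2 := by
    have h1 : d * (‖n‖ + 1) = r / 2 := by
      rw [hd]
      field_simp
    nlinarith
  have hin : ∀ x ∈ Metric.ball z (r / 2), ∀ t : ℝ, |t| ≤ d → x + t • n ∈ Metric.ball z r := by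
    intro x hx t ht
    rw [Metric.mem_ball, dist_eq_norm] at hx ⊢
    have h1 : x + t • n - z = (x - z) + t • n := by abel
    have h2 : ‖t • n‖ ≤ d * ‖n‖ := by
      rw [norm_smul, Real.norm_eq_abs]
      exact mul_le_mul_of_nonneg_right ht (norm_nonneg _)
    rw [h1]
    calc ‖(x - z) + t • n‖ ≤ ‖x - z‖ + ‖t • n‖ := norm_add_le _ _
      _ < r := by linarith
  obtain ⟨e, he, hes⟩ : ∃ e > 0, ∀ x ∈ Metric.ball z e, |F x| < d / 2 ∧ x ∈ Metric.ball z (r / 2) := by
    have h1 : ∀ᶠ x in 𝓝 z, |F x| < d / 2 := by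
      have h2 : ContinuousAt (fun x => |F x|) z := hF.continuous.abs.continuousAt
      refine h2.eventually (gt_mem_nhds ?_)
      show |F z| < d / 2
      rw [hz.2, abs_zero]
      positivity
    have h3 : ∀ᶠ x in 𝓝 z, x ∈ Metric.ball z (r / 2) := Metric.ball_mem_nhds z (by positivity)
    exact Metric.eventually_nhds_iff_ball.1 (h1.and h3)
  refine ⟨e, he, fun x hx hGx => ?_⟩
  obtain ⟨hFx, hxr⟩ := hes x hx
  rw [abs_lt] at hFx
  have hγ : ∀ t : ℝ, HasDerivAt (fun s : ℝ => x + s • n) n t := by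
    intro t
    have h1 : HasDerivAt (fun s : ℝ => s • n) ((1 : ℝ) • n) t := (hasDerivAt_id t).smul_const n
    rw [one_smul] at h1
    exact h1.const_add x
  have hdF : ∀ t : ℝ, HasDerivAt (fun s : ℝ => F (x + s • n)) (A (x + t • n)) t :=
    fun t => hasDerivAt_comp hF (fun s : ℝ => x + s • n) n t (hγ t)
  have hf0 : F (x + (0 : ℝ) • n) = F x := by rw [zero_smul, add_zero]
  have hpos : 0 < F (x + d • n) := by
    obtain ⟨c, hc, hc1⟩ := exists_hasDerivAt_eq_slope (fun s : ℝ => F (x + s • n))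
      (fun t => A (x + t • n)) hdpos (fun t _ => (hdF t).continuousAt.continuousWithinAt)
      (fun t _ => hdF t)
    have h1 := (hrs _ (hin x hxr c (by rw [abs_le]; constructor <;> linarith [hc.1, hc.2]))).1
    have h2 : A (x + c • n) * d = F (x + d • n) - F x := by
      have h3 : A (x + c • n) = (F (x + d • n) - F x) / d := by
        rw [hc1, hf0, sub_zero]
      rw [h3]
      field_simp
    nlinarith
  have hneg : F (x + (-d) • n) < 0 := by
    obtain ⟨c, hc, hc1⟩ := exists_hasDerivAt_eq_slope (fun s : ℝ => F (x + s • n))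
      (fun t => A (x + t • n)) (show -d < 0 by linarith)
      (fun t _ => (hdF t).continuousAt.continuousWithinAt)
      (fun t _ => hdF t)
    have h1 := (hrs _ (hin x hxr c (by rw [abs_le]; constructor <;> linarith [hc.1, hc.2]))).1
    have h2 : A (x + c • n) * d = F x - F (x + (-d) • n) := by
      have h3 : A (x + c • n) = (F x - F (x + (-d) • n)) / d := by
        rw [hc1, hf0, zero_sub, neg_neg]
      rw [h3]
      field_simp
    nlinarith
  obtain ⟨t₀, ht₀, hFt⟩ : ∃ t₀ ∈ Set.Icc (-d) d, F (x + t₀ • n) = 0 := by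
    have h1 : ContinuousOn (fun s : ℝ => F (x + s • n)) (Set.Icc (-d) d) :=
      fun t _ => (hdF t).continuousAt.continuousWithinAt
    have h2 := intermediate_value_Icc (show -d ≤ d by linarith) h1
    obtain ⟨t₀, ht₀, h3⟩ := h2 ⟨hneg.le, hpos.le⟩
    exact ⟨t₀, ht₀, h3⟩
  have hx' := (hrs _ (hin x hxr t₀ (abs_le.2 ⟨ht₀.1, ht₀.2⟩))).2.2
  have hGt : G (x + t₀ • n) = 0 := h0 _ ⟨hx'.le, hFt⟩
  have hG0 : G (x + (0 : ℝ) • n) = 0 := by rw [zero_smul, add_zero, hGx]
  have hnz : ∀ t : ℝ, |t| ≤ d → ∑ k, n k * pd k G (x + t • n) ≠ 0 :=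
    fun t ht => (hrs _ (hin x hxr t ht)).2.1
  rcases lt_trichotomy t₀ 0 with ht | ht | ht
  · exfalso
    exact no_two_zeros hG x n ht hGt hG0 fun t h1 h2 =>
      hnz t (by rw [abs_le]; constructor <;> linarith [ht₀.1])
  · rw [ht, zero_smul, add_zero] at hFt
    exact hFt
  · exfalso
    exact no_two_zeros hG x n ht hG0 hGt fun t h1 h2 =>
      hnz t (by rw [abs_le]; constructor <;> linarith [ht₀.2])

end Pool.Agent.Helper99.RS
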