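import Pool.Agent.Helper99.TS.Calc

/-!
# RS: conjugation of the Laplacian with an exponential weight

`conj`: with `z = exp (τ ψ) w` one has `Δ z - 2 τ ∇ψ . ∇z + (τ² |∇ψ|² - τ Δψ) z = exp (τ ψ) Δ w` along the surface.
-/

set_option autoImplicit false

open scoped ContDiff

namespace Pool.Agent.Helper99.RS

open Pool.Agent.Helper78.FB

variable {F f g a b ψ w : E → ℝ}

theorem lap_mul (hf : ContDiff ℝ ∞ f) (hg : ContDiff ℝ ∞ g) (y : E) :
    lap F (fun y => f y * g y) y = f y * lap F g y + g y * lap F f y + 2 * tang F f g y :=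
  Pool.Agent.Helper99.TS.lap_mul hf hg y

theorem contDiff_expw (hψ : ContDiff ℝ ∞ ψ) (τ : ℝ) : ContDiff ℝ ∞ (fun y : E => Real.exp (τ * ψ y)) :=
  (contDiff_const.mul hψ).exp

theorem pd_expw (hψ : ContDiff ℝ ∞ ψ) (τ : ℝ) (i : Fin 3) :
    pd i (fun y : E => Real.exp (τ * ψ y)) = fun y => Real.exp (τ * ψ y) * (τ * pd i ψ y) := by
  have h1 := pd_comp i Real.exp Real.contDiff_exp (f := fun y => τ * ψ y) (contDiff_const.mul hψ)
  rw [h1, pd_const_mul i τ hψ]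
  funext y
  rw [Real.deriv_exp]

theorem pd_pd_expw (hψ : ContDiff ℝ ∞ ψ) (τ : ℝ) (i j : Fin 3) (y : E) :
    pd i (pd j (fun y : E => Real.exp (τ * ψ y))) y =
      Real.exp (τ * ψ y) * (τ * pd i ψ y) * (τ * pd j ψ y) + Real.exp (τ * ψ y) * (τ * pd i (pd j ψ) y) := by
  rw [pd_expw hψ τ j, pd_mul i (contDiff_expw hψ τ) (contDiff_const.mul (contDiff_pd j hψ)), pd_expw hψ τ i,
    pd_const_mul i τ (contDiff_pd j hψ)]

theorem lap_expw (hψ : ContDiff ℝ ∞ ψ) (τ : ℝ) (y : E) :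
    lap F (fun y => Real.exp (τ * ψ y)) y =
      Real.exp (τ * ψ y) * (τ * lap F ψ y + τ ^ 2 * tang F ψ ψ y) := by
  unfold lap tang
  simp only [pd_pd_expw hψ τ, Fin.sum_univ_three]
  ring

theorem tang_expw (hψ : ContDiff ℝ ∞ ψ) (τ : ℝ) (y : E) :
    tang F (fun y => Real.exp (τ * ψ y)) w y = Real.exp (τ * ψ y) * (τ * tang F ψ w y) := by
  unfold tang
  simp only [pd_expw hψ τ, Fin.sum_univ_three]
  ring

theorem tang_expw_mul (hψ : ContDiff ℝ ∞ ψ) (hw : ContDiff ℝ ∞ w) (τ : ℝ) (y : E) :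
    tang F ψ (fun y => Real.exp (τ * ψ y) * w y) y =
      Real.exp (τ * ψ y) * (tang F ψ w y + τ * tang F ψ ψ y * w y) := by
  have h1 : ∀ i : Fin 3, pd i (fun y => Real.exp (τ * ψ y) * w y) y =
      Real.exp (τ * ψ y) * (τ * pd i ψ y) * w y + Real.exp (τ * ψ y) * pd i w y := by
    intro i
    rw [pd_mul i (contDiff_expw hψ τ) hw, pd_expw hψ τ i]
  unfold tang
  simp only [h1, Fin.sum_univ_three]
  ring

theorem conj (hψ : ContDiff ℝ ∞ ψ) (hw : ContDiff ℝ ∞ w) (τ : ℝ) (y : E) :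
    lap F (fun y => Real.exp (τ * ψ y) * w y) y - 2 * τ * tang F ψ (fun y => Real.exp (τ * ψ y) * w y) y +
        (τ ^ 2 * tang F ψ ψ y - τ * lap F ψ y) * (Real.exp (τ * ψ y) * w y) =
      Real.exp (τ * ψ y) * lap F w y := by
  rw [lap_mul (contDiff_expw hψ τ) hw, lap_expw hψ τ, tang_expw hψ τ, tang_expw_mul hψ hw τ]
  ring

end Pool.Agent.Helper99.RS
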