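import Pool.Agent.Helper94.RT.Defs

/-!
# RT, leaf ISO-C: the rotation function in an isothermal chart

With `X = xx G`, `G' = a + i b`: `a, b` are orthogonal of equal length `q = λ²` and orthogonal to the normal `N`. Hence
`a_k a_l + b_k b_l = q (δ_kl - N_k N_l)`, the flat Laplacian of `f ∘ X` is `q (lap F f) ∘ X`, and `N = ± (a × b) / q` with a
constant sign, so that the rotation function in the chart is real analytic.
-/

set_option autoImplicit false

open scoped ContDiff Topology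

namespace Pool.Agent.Helper99.RS

open Pool.Agent.Helper78.FB

variable {F : E → ℝ}

/-! ### Algebra -/

theorem frame {a b N : Fin 3 → ℝ} {q : ℝ} (hq : q ≠ 0) (haa : ∑ k, a k * a k = q) (hbb : ∑ k, b k * b k = q)
    (hab : ∑ k, a k * b k = 0) (hNa : ∑ k, N k * a k = 0) (hNb : ∑ k, N k * b k = 0) (hNN : ∑ k, N k * N k = 1)
    (k l : Fin 3) : a k * a l + b k * b l = q * ((if k = l then 1 else 0) - N k * N l) := by
  simp only [Fin.sum_univ_three] at haa hbb hab hNa hNb hNN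
  have h1 : (Matrix.of ![N, a, b] : Matrix (Fin 3) (Fin 3) ℝ) *
      (Matrix.of fun k r => (![N k, a k / q, b k / q] : Fin 3 → ℝ) r) = 1 := by
    ext i j
    rw [Matrix.mul_apply]
    fin_cases i <;> fin_cases j <;>
      simp [Fin.sum_univ_three, Matrix.one_apply] <;> field_simp <;> linarith
  have h2 := mul_eq_one_comm.1 h1
  have h3 := congrFun (congrFun h2 k) l
  rw [Matrix.mul_apply] at h3
  simp only [Fin.sum_univ_three, Matrix.of_apply, Matrix.cons_val_zero, Matrix.cons_val_one, Matrix.cons_val_two,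
    Matrix.head_cons, Matrix.tail_cons, Matrix.one_apply] at h3
  rw [← h3]
  field_simp
  ring

theorem frame_det {a b N : Fin 3 → ℝ} {q : ℝ} (haa : ∑ k, a k * a k = q) (hbb : ∑ k, b k * b k = q)
    (hab : ∑ k, a k * b k = 0) (hNa : ∑ k, N k * a k = 0) (hNb : ∑ k, N k * b k = 0) (hNN : ∑ k, N k * N k = 1) :
    (N 0 * (a 1 * b 2 - a 2 * b 1) + N 1 * (a 2 * b 0 - a 0 * b 2) + N 2 * (a 0 * b 1 - a 1 * b 0)) ^ 2 = q ^ 2 := by
  simp only [Fin.sum_univ_three] at haa hbb hab hNa hNb hNN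
  have h : (N 0 * (a 1 * b 2 - a 2 * b 1) + N 1 * (a 2 * b 0 - a 0 * b 2) + N 2 * (a 0 * b 1 - a 1 * b 0)) ^ 2 =
      (N 0 * N 0 + N 1 * N 1 + N 2 * N 2) * (a 0 * a 0 + a 1 * a 1 + a 2 * a 2) * (b 0 * b 0 + b 1 * b 1 + b 2 * b 2)
      + 2 * (N 0 * a 0 + N 1 * a 1 + N 2 * a 2) * (a 0 * b 0 + a 1 * b 1 + a 2 * b 2) *
        (N 0 * b 0 + N 1 * b 1 + N 2 * b 2)
      - (N 0 * N 0 + N 1 * N 1 + N 2 * N 2) * (a 0 * b 0 + a 1 * b 1 + a 2 * b 2) ^ 2
      - (a 0 * a 0 + a 1 * a 1 + a 2 * a 2) * (N 0 * b 0 + N 1 * b 1 + N 2 * b 2) ^ 2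
      - (b 0 * b 0 + b 1 * b 1 + b 2 * b 2) * (N 0 * a 0 + N 1 * a 1 + N 2 * a 2) ^ 2 := by ring
  rw [h, haa, hbb, hab, hNa, hNb, hNN]
  ring

/-- `D N_0 = (a × b)_0`, `D N_1 = (a × b)_1`. -/
theorem frame_N {a b N : Fin 3 → ℝ} {q : ℝ} (hq : q ≠ 0) (haa : ∑ k, a k * a k = q) (hbb : ∑ k, b k * b k = q)
    (hab : ∑ k, a k * b k = 0) (hNa : ∑ k, N k * a k = 0) (hNb : ∑ k, N k * b k = 0) (hNN : ∑ k, N k * N k = 1) :
    (N 0 * (a 1 * b 2 - a 2 * b 1) + N 1 * (a 2 * b 0 - a 0 * b 2) + N 2 * (a 0 * b 1 - a 1 * b 0)) * N 0 =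
      a 1 * b 2 - a 2 * b 1 ∧
    (N 0 * (a 1 * b 2 - a 2 * b 1) + N 1 * (a 2 * b 0 - a 0 * b 2) + N 2 * (a 0 * b 1 - a 1 * b 0)) * N 1 =
      a 2 * b 0 - a 0 * b 2 := by
  have f := frame hq haa hbb hab hNa hNb hNN
  have f00 := f 0 0
  have f01 := f 0 1
  have f02 := f 0 2
  have f11 := f 1 1
  have f12 := f 1 2
  simp at f00 f01 f02 f11 f12
  have g00 : N 0 * N 0 = 1 - (a 0 * a 0 + b 0 * b 0) / q := by field_simp; linarith
  have g01 : N 0 * N 1 = - (a 0 * a 1 + b 0 * b 1) / q := by field_simp; linarith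
  have g02 : N 0 * N 2 = - (a 0 * a 2 + b 0 * b 2) / q := by field_simp; linarith
  have g11 : N 1 * N 1 = 1 - (a 1 * a 1 + b 1 * b 1) / q := by field_simp; linarith
  have g12 : N 1 * N 2 = - (a 1 * a 2 + b 1 * b 2) / q := by field_simp; linarith
  constructor
  · have : (N 0 * (a 1 * b 2 - a 2 * b 1) + N 1 * (a 2 * b 0 - a 0 * b 2) + N 2 * (a 0 * b 1 - a 1 * b 0)) * N 0 =
      (N 0 * N 0) * (a 1 * b 2 - a 2 * b 1) + (N 0 * N 1) * (a 2 * b 0 - a 0 * b 2) +
        (N 0 * N 2) * (a 0 * b 1 - a 1 * b 0) := by ring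
    rw [this, g00, g01, g02]
    field_simp
    ring
  · have : (N 0 * (a 1 * b 2 - a 2 * b 1) + N 1 * (a 2 * b 0 - a 0 * b 2) + N 2 * (a 0 * b 1 - a 1 * b 0)) * N 1 =
      (N 0 * N 1) * (a 1 * b 2 - a 2 * b 1) + (N 1 * N 1) * (a 2 * b 0 - a 0 * b 2) +
        (N 1 * N 2) * (a 0 * b 1 - a 1 * b 0) := by ring
    rw [this, g01, g11, g12]
    field_simp
    ring

/-! ### Derivatives in the chart -/

theorem hasFDerivAt_re {g : ℂ → ℂ} {g' w : ℂ} (h : HasDerivAt g g' w) :
    HasFDerivAt (fun z => (g z).re) (Complex.reCLM.comp (g' • (1 : ℂ →L[ℝ] ℂ))) w :=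
  Complex.reCLM.hasFDerivAt.comp w h.complexToReal_fderiv

variable {z : E} {r : ℝ} {G : Fin 3 → ℂ → ℂ}

theorem hasDerivAt_G (hG : IsoChart F z r G) {w : ℂ} (hw : w ∈ Metric.ball (0 : ℂ) r) (k : Fin 3) :
    HasDerivAt (G k) (deriv (G k) w) w :=
  ((hG.hol k).differentiableAt (Metric.isOpen_ball.mem_nhds hw)).hasDerivAt

theorem hasDerivAt_dG (hG : IsoChart F z r G) {w : ℂ} (hw : w ∈ Metric.ball (0 : ℂ) r) (k : Fin 3) :
    HasDerivAt (deriv (G k)) (deriv (deriv (G k)) w) w :=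
  (((hG.hol k).deriv Metric.isOpen_ball).differentiableAt (Metric.isOpen_ball.mem_nhds hw)).hasDerivAt

theorem hasFDerivAt_xx (hG : IsoChart F z r G) {w : ℂ} (hw : w ∈ Metric.ball (0 : ℂ) r) :
    ∃ L : ℂ →L[ℝ] E, HasFDerivAt (xx G) L w ∧ ∀ v k, L v k = (deriv (G k) w * v).re := by
  have h1 : HasFDerivAt (fun w => (fun k : Fin 3 => (G k w).re))
      (ContinuousLinearMap.pi fun k => Complex.reCLM.comp (deriv (G k) w • (1 : ℂ →L[ℝ] ℂ))) w :=
    hasFDerivAt_pi.2 fun k => hasFDerivAt_re (hasDerivAt_G hG hw k)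
  have h2 : xx G = fun w => (EuclideanSpace.equiv (Fin 3) ℝ).symm (fun k : Fin 3 => (G k w).re) := by
    funext w
    ext k
    fin_cases k <;> rfl
  refine ⟨((EuclideanSpace.equiv (Fin 3) ℝ).symm : (Fin 3 → ℝ) →L[ℝ] E).comp
    (ContinuousLinearMap.pi fun k => Complex.reCLM.comp (deriv (G k) w • (1 : ℂ →L[ℝ] ℂ))), ?_, ?_⟩
  · rw [h2]
    exact ((EuclideanSpace.equiv (Fin 3) ℝ).symm : (Fin 3 → ℝ) →L[ℝ] E).hasFDerivAt.comp w h1
  · intro v k
    rfl

theorem hasFDerivAt_comp_xx (hG : IsoChart F z r G) {f : E → ℝ} (hf : ContDiff ℝ ∞ f) {w : ℂ}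
    (hw : w ∈ Metric.ball (0 : ℂ) r) :
    ∃ L : ℂ →L[ℝ] ℝ, HasFDerivAt (fun w => f (xx G w)) L w ∧
      ∀ v, L v = ∑ k, (deriv (G k) w * v).re * pd k f (xx G w) := by
  obtain ⟨L, hL, hL'⟩ := hasFDerivAt_xx hG hw
  have h1 : HasFDerivAt f (fderiv ℝ f (xx G w)) (xx G w) := (hf.differentiable (by simp) _).hasFDerivAt
  refine ⟨(fderiv ℝ f (xx G w)).comp L, h1.comp w hL, ?_⟩
  intro v
  show fderiv ℝ f (xx G w) (L v) = _
  rw [fderiv_eq hf]
  exact Finset.sum_congr rfl fun k _ => by rw [hL']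

theorem fderiv_comp_xx (hG : IsoChart F z r G) {f : E → ℝ} (hf : ContDiff ℝ ∞ f) {w : ℂ}
    (hw : w ∈ Metric.ball (0 : ℂ) r) (v : ℂ) :
    fderiv ℝ (fun w => f (xx G w)) w v = ∑ k, (deriv (G k) w * v).re * pd k f (xx G w) := by
  obtain ⟨L, hL, hL'⟩ := hasFDerivAt_comp_xx hG hf hw
  rw [hL.fderiv, hL']

theorem fderiv2_comp_xx (hG : IsoChart F z r G) {f : E → ℝ} (hf : ContDiff ℝ ∞ f) {w : ℂ}
    (hw : w ∈ Metric.ball (0 : ℂ) r) (v : ℂ) :
    fderiv ℝ (fun z => fderiv ℝ (fun w => f (xx G w)) z v) w v =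
      ∑ k, ((deriv (deriv (G k)) w * v * v).re * pd k f (xx G w) +
        (deriv (G k) w * v).re * ∑ l, (deriv (G l) w * v).re * pd l (pd k f) (xx G w)) := by
  have h1 : (fun z => fderiv ℝ (fun w => f (xx G w)) z v) =ᶠ[𝓝 w]
      fun z => ∑ k, (deriv (G k) z * v).re * pd k f (xx G z) := by
    filter_upwards [Metric.isOpen_ball.mem_nhds hw] with z hz
    exact fderiv_comp_xx hG hf hz v
  rw [h1.fderiv_eq]
  have h2 : ∀ k : Fin 3, ∃ L : ℂ →L[ℝ] ℝ, HasFDerivAt (fun z => (deriv (G k) z * v).re * pd k f (xx G z)) L w ∧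
      L v = (deriv (deriv (G k)) w * v * v).re * pd k f (xx G w) +
        (deriv (G k) w * v).re * ∑ l, (deriv (G l) w * v).re * pd l (pd k f) (xx G w) := by
    intro k
    obtain ⟨L, hL, hL'⟩ := hasFDerivAt_comp_xx hG (contDiff_pd k hf) hw
    have h3 := hasFDerivAt_re ((hasDerivAt_dG hG hw k).mul_const v)
    refine ⟨_, h3.mul hL, ?_⟩
    show (deriv (G k) w * v).re * L v + pd k f (xx G w) * ((deriv (deriv (G k)) w * v) • v).re = _
    rw [hL', smul_eq_mul]
    ring
  choose L hL hL' using h2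
  have h3 : HasFDerivAt (fun z => ∑ k, (deriv (G k) z * v).re * pd k f (xx G z)) (∑ k, L k) w :=
    HasFDerivAt.fun_sum fun k _ => hL k
  rw [h3.fderiv, sum_apply]
  exact Finset.sum_congr rfl fun k _ => hL' k

theorem lap2_comp_xx (hG : IsoChart F z r G) {f : E → ℝ} (hf : ContDiff ℝ ∞ f) {w : ℂ}
    (hw : w ∈ Metric.ball (0 : ℂ) r) :
    lap2 (fun w => f (xx G w)) w = ∑ k, ∑ l, ((deriv (G k) w).re * (deriv (G l) w).re +
      (deriv (G k) w).im * (deriv (G l) w).im) * pd l (pd k f) (xx G w) := by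
  unfold lap2
  rw [fderiv2_comp_xx hG hf hw, fderiv2_comp_xx hG hf hw, ← Finset.sum_add_distrib]
  refine Finset.sum_congr rfl fun k _ => ?_
  rw [Finset.mul_sum, Finset.mul_sum]
  have h1 : (deriv (deriv (G k)) w * 1 * 1).re + (deriv (deriv (G k)) w * Complex.I * Complex.I).re = 0 := by
    simp
  have h2 : ∀ l, (deriv (G l) w * Complex.I).re = -(deriv (G l) w).im := by
    intro l
    simp
  simp only [h2, mul_one]
  have h3 : (deriv (deriv (G k)) w * Complex.I * Complex.I).re = -(deriv (deriv (G k)) w).re := by simp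
  rw [h3]
  have h4 : ∑ l, ((deriv (G k) w).re * (deriv (G l) w).re + (deriv (G k) w).im * (deriv (G l) w).im) *
      pd l (pd k f) (xx G w) = ∑ l, (deriv (G k) w).re * ((deriv (G l) w).re * pd l (pd k f) (xx G w)) +
      ∑ l, -(deriv (G k) w).im * (-(deriv (G l) w).im * pd l (pd k f) (xx G w)) := by
    rw [← Finset.sum_add_distrib]
    exact Finset.sum_congr rfl fun l _ => by ring
  rw [h4]
  ring

/-! ### The frame of the chart -/

theorem chart_frame (h : FBMS F) (hG : IsoChart F z r G) {w : ℂ} (hw : w ∈ Metric.ball (0 : ℂ) r) :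
    0 < ∑ k, (deriv (G k) w).re * (deriv (G k) w).re ∧
    (∑ k, (deriv (G k) w).im * (deriv (G k) w).im = ∑ k, (deriv (G k) w).re * (deriv (G k) w).re) ∧
    (∑ k, (deriv (G k) w).re * (deriv (G k) w).im = 0) ∧
    (∑ k, pd k F (xx G w) * (deriv (G k) w).re = 0) ∧
    (∑ k, pd k F (xx G w) * (deriv (G k) w).im = 0) ∧
    (∑ k, pd k F (xx G w) * pd k F (xx G w) = 1) := by
  have hn := hG.null w hw
  have hre : ∑ k, ((deriv (G k) w).re * (deriv (G k) w).re - (deriv (G k) w).im * (deriv (G k) w).im) = 0 := by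
    have := congrArg Complex.re hn
    simpa [Complex.re_sum, sq] using this
  have him : ∑ k, ((deriv (G k) w).re * (deriv (G k) w).im + (deriv (G k) w).im * (deriv (G k) w).re) = 0 := by
    have := congrArg Complex.im hn
    simpa [Complex.im_sum, sq] using this
  have h1 : ∑ k, (deriv (G k) w).im * (deriv (G k) w).im = ∑ k, (deriv (G k) w).re * (deriv (G k) w).re := by
    rw [Finset.sum_sub_distrib] at hre
    linarith
  have h2 : ∑ k, (deriv (G k) w).re * (deriv (G k) w).im = 0 := by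
    have h3 : ∑ k, ((deriv (G k) w).re * (deriv (G k) w).im + (deriv (G k) w).im * (deriv (G k) w).re) =
        2 * ∑ k, (deriv (G k) w).re * (deriv (G k) w).im := by
      rw [Finset.mul_sum]
      exact Finset.sum_congr rfl fun k _ => by ring
    rw [h3] at him
    linarith
  -- the derivative of `F ∘ X = 0`
  have h0 : (fun w => F (xx G w)) =ᶠ[𝓝 w] fun _ => 0 := by
    filter_upwards [Metric.isOpen_ball.mem_nhds hw] with v hv
    exact (hG.mem v hv).2
  have hz : ∀ v : ℂ, ∑ k, (deriv (G k) w * v).re * pd k F (xx G w) = 0 := by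
    intro v
    rw [← fderiv_comp_xx hG h.smooth hw v, h0.fderiv_eq]
    simp
  refine ⟨?_, h1, h2, ?_, ?_, ?_⟩
  · obtain ⟨k, hk⟩ := hG.imm w hw
    by_contra hcon
    have hle : ∑ k, (deriv (G k) w).re * (deriv (G k) w).re = 0 :=
      le_antisymm (not_lt.1 hcon) (Finset.sum_nonneg fun k _ => mul_self_nonneg _)
    have h3 := (Finset.sum_eq_zero_iff_of_nonneg (fun k _ => mul_self_nonneg _)).1 hle k (Finset.mem_univ k)
    rw [hle] at h1
    have h4 := (Finset.sum_eq_zero_iff_of_nonneg (fun k _ => mul_self_nonneg _)).1 h1 k (Finset.mem_univ k)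
    exact hk (Complex.ext (by simpa using h3) (by simpa using h4))
  · have := hz 1
    simpa [mul_comm] using this
  · have := hz Complex.I
    simp only [Complex.mul_re, Complex.I_re, Complex.I_im, mul_zero, mul_one, zero_sub] at this
    have h5 : ∑ k, -(deriv (G k) w).im * pd k F (xx G w) = -∑ k, pd k F (xx G w) * (deriv (G k) w).im := by
      rw [← Finset.sum_neg_distrib]
      exact Finset.sum_congr rfl fun k _ => by ring
    rw [h5] at this
    linarith
  · have := grad_sq h (y := xx G w) ⟨(hG.mem w hw).1.le, (hG.mem w hw).2⟩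
    simpa [sq] using this

theorem lap2_null (h : FBMS F) (hG : IsoChart F z r G) {f : E → ℝ} (hf : ContDiff ℝ ∞ f) {w : ℂ}
    (hw : w ∈ Metric.ball (0 : ℂ) r) :
    lap2 (fun w => f (xx G w)) w =
      (∑ k, (deriv (G k) w).re * (deriv (G k) w).re) * lap F f (xx G w) := by
  obtain ⟨hq, hbb, hab, hNa, hNb, hNN⟩ := chart_frame h hG hw
  have hfr := frame hq.ne' rfl hbb hab hNa hNb hNN
  rw [lap2_comp_xx hG hf hw]
  set q : ℝ := ∑ k, (deriv (G k) w).re * (deriv (G k) w).re with hqd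
  have h1 : ∀ k l : Fin 3, ((deriv (G k) w).re * (deriv (G l) w).re + (deriv (G k) w).im * (deriv (G l) w).im) *
      pd l (pd k f) (xx G w) = q * ((if k = l then 1 else 0) - pd k F (xx G w) * pd l F (xx G w)) *
      pd l (pd k f) (xx G w) := fun k l => by rw [hfr k l]
  simp only [h1]
  unfold lap
  simp only [Fin.sum_univ_three]
  simp
  ring

theorem analytic_re (hG : IsoChart F z r G) (k : Fin 3) :
    AnalyticOnNhd ℝ (fun w => (G k w).re) (Metric.ball 0 r) := by
  have h1 : AnalyticOnNhd ℂ (G k) (Metric.ball 0 r) := (hG.hol k).analyticOnNhd Metric.isOpen_ball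
  intro w hw
  exact Complex.reCLM.analyticAt _ |>.comp (h1 w hw).restrictScalars

theorem analytic_dre (hG : IsoChart F z r G) (k : Fin 3) :
    AnalyticOnNhd ℝ (fun w => (deriv (G k) w).re) (Metric.ball 0 r) := by
  have h1 : AnalyticOnNhd ℂ (deriv (G k)) (Metric.ball 0 r) :=
    ((hG.hol k).analyticOnNhd Metric.isOpen_ball).deriv
  intro w hw
  exact Complex.reCLM.analyticAt _ |>.comp (h1 w hw).restrictScalars

theorem analytic_dim (hG : IsoChart F z r G) (k : Fin 3) :
    AnalyticOnNhd ℝ (fun w => (deriv (G k) w).im) (Metric.ball 0 r) := by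
  have h1 : AnalyticOnNhd ℂ (deriv (G k)) (Metric.ball 0 r) :=
    ((hG.hol k).analyticOnNhd Metric.isOpen_ball).deriv
  intro w hw
  exact Complex.imCLM.analyticAt _ |>.comp (h1 w hw).restrictScalars

theorem cont_xx (hG : IsoChart F z r G) : ContinuousOn (xx G) (Metric.ball 0 r) := by
  intro w hw
  obtain ⟨L, hL, -⟩ := hasFDerivAt_xx hG hw
  exact hL.continuousAt.continuousWithinAt

/-- The normal in the chart, up to a constant sign. -/
theorem normal_eq (h : FBMS F) (hG : IsoChart F z r G) : ∃ σ : ℝ, ∀ w ∈ Metric.ball (0 : ℂ) r,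
    pd 0 F (xx G w) = σ * ((deriv (G 1) w).re * (deriv (G 2) w).im - (deriv (G 2) w).re * (deriv (G 1) w).im) /
      (∑ k, (deriv (G k) w).re * (deriv (G k) w).re) ∧
    pd 1 F (xx G w) = σ * ((deriv (G 2) w).re * (deriv (G 0) w).im - (deriv (G 0) w).re * (deriv (G 2) w).im) /
      (∑ k, (deriv (G k) w).re * (deriv (G k) w).re) := by
  set D : ℂ → ℝ := fun w =>
    (pd 0 F (xx G w) * ((deriv (G 1) w).re * (deriv (G 2) w).im - (deriv (G 2) w).re * (deriv (G 1) w).im) +
      pd 1 F (xx G w) * ((deriv (G 2) w).re * (deriv (G 0) w).im - (deriv (G 0) w).re * (deriv (G 2) w).im) +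
      pd 2 F (xx G w) * ((deriv (G 0) w).re * (deriv (G 1) w).im - (deriv (G 1) w).re * (deriv (G 0) w).im)) /
      (∑ k, (deriv (G k) w).re * (deriv (G k) w).re) with hD
  have hqpos : ∀ w ∈ Metric.ball (0 : ℂ) r, 0 < ∑ k, (deriv (G k) w).re * (deriv (G k) w).re :=
    fun w hw => (chart_frame h hG hw).1
  have hcN : ∀ k, ContinuousOn (fun w => pd k F (xx G w)) (Metric.ball 0 r) := fun k =>
    (contDiff_pd k h.smooth).continuous.comp_continuousOn (cont_xx hG)
  have hca : ∀ k, ContinuousOn (fun w => (deriv (G k) w).re) (Metric.ball 0 r) := fun k =>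
    (analytic_dre hG k).continuousOn
  have hcb : ∀ k, ContinuousOn (fun w => (deriv (G k) w).im) (Metric.ball 0 r) := fun k =>
    (analytic_dim hG k).continuousOn
  have hcD : ContinuousOn D (Metric.ball 0 r) := by
    refine ContinuousOn.div ?_ ?_ fun w hw => (hqpos w hw).ne'
    · exact (((hcN 0).mul (((hca 1).mul (hcb 2)).sub ((hca 2).mul (hcb 1)))).add
        ((hcN 1).mul (((hca 2).mul (hcb 0)).sub ((hca 0).mul (hcb 2))))).add
        ((hcN 2).mul (((hca 0).mul (hcb 1)).sub ((hca 1).mul (hcb 0))))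
    · exact continuousOn_finsetSum _ fun k _ => (hca k).mul (hca k)
  have hsq : Set.EqOn (D ^ 2) 1 (Metric.ball 0 r) := by
    intro w hw
    obtain ⟨hq, hbb, hab, hNa, hNb, hNN⟩ := chart_frame h hG hw
    have h1 := frame_det rfl hbb hab hNa hNb hNN
    simp only [Pi.pow_apply, Pi.one_apply, hD, div_pow]
    rw [h1, div_self (pow_ne_zero 2 hq.ne')]
  have hpre : IsPreconnected (Metric.ball (0 : ℂ) r) := (convex_ball _ _).isPreconnected
  have hN : ∀ w ∈ Metric.ball (0 : ℂ) r,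
      D w * pd 0 F (xx G w) = ((deriv (G 1) w).re * (deriv (G 2) w).im - (deriv (G 2) w).re * (deriv (G 1) w).im) /
        (∑ k, (deriv (G k) w).re * (deriv (G k) w).re) ∧
      D w * pd 1 F (xx G w) = ((deriv (G 2) w).re * (deriv (G 0) w).im - (deriv (G 0) w).re * (deriv (G 2) w).im) /
        (∑ k, (deriv (G k) w).re * (deriv (G k) w).re) := by
    intro w hw
    obtain ⟨hq, hbb, hab, hNa, hNb, hNN⟩ := chart_frame h hG hw
    obtain ⟨h1, h2⟩ := frame_N hq.ne' rfl hbb hab hNa hNb hNN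
    constructor
    · rw [hD]
      simp only
      rw [div_mul_eq_mul_div, h1]
    · rw [hD]
      simp only
      rw [div_mul_eq_mul_div, h2]
  rcases hpre.eq_one_or_eq_neg_one_of_sq_eq hcD hsq with h1 | h1
  · refine ⟨1, fun w hw => ?_⟩
    have h2 := h1 hw
    obtain ⟨h3, h4⟩ := hN w hw
    simp only [Pi.one_apply] at h2
    rw [h2, one_mul] at h3 h4
    rw [one_mul, one_mul]
    exact ⟨h3, h4⟩
  · refine ⟨-1, fun w hw => ?_⟩
    have h2 := h1 hw
    obtain ⟨h3, h4⟩ := hN w hw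
    simp only [Pi.neg_apply, Pi.one_apply] at h2
    rw [h2] at h3 h4
    constructor
    · rw [neg_one_mul, neg_div, ← h3]; ring
    · rw [neg_one_mul, neg_div, ← h4]; ring

/-- leaf ISO-C -/
theorem statC : StatC := by
  intro F h z r G hG
  have hφ : ContDiff ℝ ∞ (ww F 0 1) := contDiff_ww h.smooth 0 1
  refine ⟨?_, ?_, ?_⟩
  · obtain ⟨σ, hσ⟩ := normal_eq h hG
    have h1 : AnalyticOnNhd ℝ (fun w => (G 0 w).re * (σ * ((deriv (G 2) w).re * (deriv (G 0) w).im -
        (deriv (G 0) w).re * (deriv (G 2) w).im) / (∑ k, (deriv (G k) w).re * (deriv (G k) w).re)) -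
        (G 1 w).re * (σ * ((deriv (G 1) w).re * (deriv (G 2) w).im -
        (deriv (G 2) w).re * (deriv (G 1) w).im) / (∑ k, (deriv (G k) w).re * (deriv (G k) w).re)))
        (Metric.ball 0 r) := by
      have hq : AnalyticOnNhd ℝ (fun w => ∑ k, (deriv (G k) w).re * (deriv (G k) w).re) (Metric.ball 0 r) := by
        simp only [Fin.sum_univ_three]
        exact (((analytic_dre hG 0).mul (analytic_dre hG 0)).add ((analytic_dre hG 1).mul (analytic_dre hG 1))).add
          ((analytic_dre hG 2).mul (analytic_dre hG 2))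
      have hq0 : ∀ w ∈ Metric.ball (0 : ℂ) r, (∑ k, (deriv (G k) w).re * (deriv (G k) w).re) ≠ 0 :=
        fun w hw => (chart_frame h hG hw).1.ne'
      refine AnalyticOnNhd.sub ?_ ?_
      · refine (analytic_re hG 0).mul (AnalyticOnNhd.div (analyticOnNhd_const.mul ?_) hq hq0)
        exact ((analytic_dre hG 2).mul (analytic_dim hG 0)).sub ((analytic_dre hG 0).mul (analytic_dim hG 2))
      · refine (analytic_re hG 1).mul (AnalyticOnNhd.div (analyticOnNhd_const.mul ?_) hq hq0)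
        exact ((analytic_dre hG 1).mul (analytic_dim hG 2)).sub ((analytic_dre hG 2).mul (analytic_dim hG 1))
    refine h1.congr Metric.isOpen_ball ?_
    intro w hw
    obtain ⟨h2, h3⟩ := hσ w hw
    simp only [ww]
    rw [h2, h3]
    rfl
  · refine ⟨fun w => -((∑ k, (deriv (G k) w).re * (deriv (G k) w).re) * normA F (xx G w)), ?_, ?_⟩
    · refine ContinuousOn.neg (ContinuousOn.mul ?_ ?_)
      · exact continuousOn_finsetSum _ fun k _ => (analytic_dre hG k).continuousOn.mul (analytic_dre hG k).continuousOn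
      · have hA : Continuous (normA F) := by
          unfold normA
          exact continuous_finsetSum _ fun i _ => continuous_finsetSum _ fun j _ =>
            ((contDiff_pd i (contDiff_pd j h.smooth)).continuous.pow 2)
        exact hA.comp_continuousOn (cont_xx hG)
    · intro w hw
      rw [lap2_null h hG hφ hw, lap_ww h ⟨(hG.mem w hw).1.le, (hG.mem w hw).2⟩]
      ring
  · intro w hw hc
    obtain ⟨-, h0, ht⟩ := hc
    obtain ⟨hq, hbb, hab, hNa, hNb, hNN⟩ := chart_frame h hG hw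
    set y := xx G w with hy
    -- the gradient of `φ` is parallel to the normal
    set c : ℝ := ∑ k, pd k F y * pd k (ww F 0 1) y with hc
    have hpar : ∀ k, pd k (ww F 0 1) y = c * pd k F y := by
      have h1 : ∑ k, (pd k (ww F 0 1) y - c * pd k F y) ^ 2 = 0 := by
        have h2 : ∑ k, (pd k (ww F 0 1) y - c * pd k F y) ^ 2 =
            ∑ k, pd k (ww F 0 1) y * pd k (ww F 0 1) y - 2 * c * (∑ k, pd k F y * pd k (ww F 0 1) y) +
              c ^ 2 * (∑ k, pd k F y * pd k F y) := by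
          simp only [Fin.sum_univ_three]
          ring
        have h3 : ∑ k, pd k (ww F 0 1) y * pd k (ww F 0 1) y = c * c := by
          unfold tang at ht
          linarith
        rw [h2, hNN, h3, ← hc]
        ring
      intro k
      have h4 := (Finset.sum_eq_zero_iff_of_nonneg (fun k _ => sq_nonneg _)).1 h1 k (Finset.mem_univ k)
      have h5 := pow_eq_zero_iff (two_ne_zero) |>.1 h4
      linarith
    ext v
    rw [fderiv_comp_xx hG hφ hw v]
    show _ = (0 : ℝ)
    have h6 : ∑ k, (deriv (G k) w * v).re * pd k (ww F 0 1) (xx G w) =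
        c * (v.re * (∑ k, pd k F y * (deriv (G k) w).re) - v.im * (∑ k, pd k F y * (deriv (G k) w).im)) := by
      simp only [← hy, hpar, Fin.sum_univ_three, Complex.mul_re]
      ring
    rw [h6, hNa, hNb]
    ring

end Pool.Agent.Helper99.RS
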