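import Pool.Agent.Helper94.RT.Defs

/-!
# RT, leaf ISO-D: critical zeros of the rotation function are isolated

From the isothermal charts (`StatA`), the local statement for analytic functions (`StatB`) and the chain rule (`StatC`), by an
open-closed argument on the connected set `inn F`.
-/

set_option autoImplicit false

open scoped ContDiff Topology

namespace Pool.Agent.Helper99.RS

open Pool.Agent.Helper78.FB

variable {F : E → ℝ}

theorem continuousOn_xx {z : E} {r : ℝ} {G : Fin 3 → ℂ → ℂ} (h : IsoChart F z r G) :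
    ContinuousOn (xx G) (Metric.ball 0 r) := by
  have h1 : ∀ k : Fin 3, ContinuousOn (fun w => (G k w).re) (Metric.ball 0 r) := fun k =>
    Complex.continuous_re.comp_continuousOn (h.hol k).continuousOn
  have h2 : ContinuousOn (fun w => (fun k : Fin 3 => (G k w).re)) (Metric.ball 0 r) :=
    continuousOn_pi.2 h1
  have h3 : xx G = fun w => (WithLp.toLp 2 (fun k : Fin 3 => (G k w).re) : E) := by
    funext w
    ext k
    fin_cases k <;> rfl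
  rw [h3]
  exact (PiLp.continuous_toLp 2 _).comp_continuousOn h2

/-- If `φ` is not identically zero near `z`, then `φ` in the chart is not identically zero, and near `z` this holds at all points. -/
theorem near_ne (h : FBMS F) (hC : StatC) {z : E} {r : ℝ} {G : Fin 3 → ℂ → ℂ} (hG : IsoChart F z r G)
    (hne : ∀ s : ℝ, 0 < s → ∃ y ∈ inn F, y ∈ Metric.ball z s ∧ ww F 0 1 y ≠ 0) :
    (∃ w ∈ Metric.ball (0 : ℂ) r, ww F 0 1 (xx G w) ≠ 0) ∧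
      ∃ ε : ℝ, 0 < ε ∧ ∀ z' ∈ inn F, z' ∈ Metric.ball z ε →
        ∀ s : ℝ, 0 < s → ∃ y ∈ inn F, y ∈ Metric.ball z' s ∧ ww F 0 1 y ≠ 0 := by
  obtain ⟨ε, hε, hn⟩ := hG.nhd r hG.pos le_rfl
  obtain ⟨y, hy, hyb, hy0⟩ := hne ε hε
  obtain ⟨w, hw, hwy⟩ := hn y ⟨hy.1.le, hy.2⟩ hyb
  have h1 : ∃ w ∈ Metric.ball (0 : ℂ) r, ww F 0 1 (xx G w) ≠ 0 := ⟨w, hw, by rw [hwy]; exact hy0⟩
  refine ⟨h1, ε, hε, ?_⟩
  intro z' hz' hz'b s hs
  obtain ⟨w', hw', hw'z⟩ := hn z' ⟨hz'.1.le, hz'.2⟩ hz'b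
  obtain ⟨han, -, -⟩ := hC F h z r G hG
  by_contra hcon
  have hcon' : ∀ y ∈ inn F, y ∈ Metric.ball z' s → ww F 0 1 y = 0 := by
    intro y hy hyb
    by_contra h0
    exact hcon ⟨y, hy, hyb, h0⟩
  have hpre : IsPreconnected (Metric.ball (0 : ℂ) r) := (convex_ball _ _).isPreconnected
  have hev : (fun w => ww F 0 1 (xx G w)) =ᶠ[𝓝 w'] 0 := by
    have hcat : ContinuousAt (xx G) w' :=
      (continuousOn_xx hG).continuousAt (Metric.isOpen_ball.mem_nhds hw')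
    have h2 : ∀ᶠ v in 𝓝 w', xx G v ∈ Metric.ball z' s := by
      have := hcat.preimage_mem_nhds (t := Metric.ball z' s) (by
        rw [hw'z]; exact Metric.ball_mem_nhds _ hs)
      exact this
    have h3 : ∀ᶠ v in 𝓝 w', v ∈ Metric.ball (0 : ℂ) r := Metric.isOpen_ball.mem_nhds hw'
    filter_upwards [h2, h3] with v hv hv'
    exact hcon' _ (hG.mem v hv') hv
  have hall := han.eqOn_zero_of_preconnected_of_eventuallyEq_zero hpre hw' hev
  obtain ⟨w₀, hw₀, hne₀⟩ := h1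
  exact hne₀ (hall hw₀)

theorem dense_ne (h : FBMS F) (hc : IsPreconnected (inn F)) (h0 : ∃ y ∈ surf F, ww F 0 1 y ≠ 0)
    (hA : StatA) (hC : StatC) :
    ∀ z ∈ inn F, ∀ r : ℝ, 0 < r → ∃ y ∈ inn F, y ∈ Metric.ball z r ∧ ww F 0 1 y ≠ 0 := by
  -- the two relatively open sets
  set U : Set E := ⋃ z ∈ {z | z ∈ inn F ∧ ∀ s : ℝ, 0 < s → ∃ y ∈ inn F, y ∈ Metric.ball z s ∧ ww F 0 1 y ≠ 0},
    ⋃ ε ∈ {ε : ℝ | 0 < ε ∧ ∀ z' ∈ inn F, z' ∈ Metric.ball z ε →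
        ∀ s : ℝ, 0 < s → ∃ y ∈ inn F, y ∈ Metric.ball z' s ∧ ww F 0 1 y ≠ 0}, Metric.ball z ε with hU
  set V : Set E := ⋃ z ∈ {z | z ∈ inn F}, ⋃ ε ∈ {ε : ℝ | 0 < ε ∧ ∀ y ∈ inn F, y ∈ Metric.ball z ε → ww F 0 1 y = 0},
    Metric.ball z ε with hV
  have hUo : IsOpen U := isOpen_biUnion fun z _ => isOpen_biUnion fun ε _ => Metric.isOpen_ball
  have hVo : IsOpen V := isOpen_biUnion fun z _ => isOpen_biUnion fun ε _ => Metric.isOpen_ball
  have hUmem : ∀ z' ∈ inn F, z' ∈ U → ∀ s : ℝ, 0 < s → ∃ y ∈ inn F, y ∈ Metric.ball z' s ∧ ww F 0 1 y ≠ 0 := by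
    intro z' hz' hz'U
    simp only [hU, Set.mem_iUnion] at hz'U
    obtain ⟨z, hz, ε, hε, hb⟩ := hz'U
    exact hε.2 z' hz' hb
  have hVmem : ∀ z' ∈ inn F, z' ∈ V → ∃ s : ℝ, 0 < s ∧ ∀ y ∈ inn F, y ∈ Metric.ball z' s → ww F 0 1 y = 0 := by
    intro z' hz' hz'V
    simp only [hV, Set.mem_iUnion] at hz'V
    obtain ⟨z, hz, ε, hε, hb⟩ := hz'V
    obtain ⟨s, hs, hsb⟩ := Metric.isOpen_iff.1 Metric.isOpen_ball z' hb
    exact ⟨s, hs, fun y hy hyb => hε.2 y hy (hsb hyb)⟩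
  have hcov : inn F ⊆ U ∪ V := by
    intro z hz
    by_cases hz1 : ∀ s : ℝ, 0 < s → ∃ y ∈ inn F, y ∈ Metric.ball z s ∧ ww F 0 1 y ≠ 0
    · left
      obtain ⟨r, G, hG⟩ := hA F h z hz
      obtain ⟨-, ε, hε, hε'⟩ := near_ne h hC hG hz1
      simp only [hU, Set.mem_iUnion]
      exact ⟨z, ⟨hz, hz1⟩, ε, ⟨hε, hε'⟩, Metric.mem_ball_self hε⟩
    · right
      push Not at hz1
      obtain ⟨s, hs, hs'⟩ := hz1
      simp only [hV, Set.mem_iUnion]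
      exact ⟨z, hz, s, ⟨hs, hs'⟩, Metric.mem_ball_self hs⟩
  -- a point of `inn F` in `U`
  obtain ⟨y, hy, hy0⟩ := h0
  have hcont : Continuous (ww F 0 1) := (contDiff_ww h.smooth 0 1).continuous
  obtain ⟨x, hx, hx0⟩ : ∃ x ∈ inn F, ww F 0 1 x ≠ 0 := by
    have hop : IsOpen {v : E | ww F 0 1 v ≠ 0} := isOpen_ne_fun hcont continuous_const
    obtain ⟨x, hxV, hxi⟩ := mem_closure_iff.1 (surf_subset h hy) _ hop hy0
    exact ⟨x, hxi, hxV⟩
  have hxU : x ∈ U := by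
    rcases hcov hx with hxU | hxV
    · exact hxU
    · obtain ⟨s, hs, hs'⟩ := hVmem x hx hxV
      exact absurd (hs' x hx (Metric.mem_ball_self hs)) hx0
  intro z hz
  rcases hcov hz with hzU | hzV
  · exact hUmem z hz hzU
  · obtain ⟨p, hp, hpU, hpV⟩ := hc U V hUo hVo hcov ⟨x, hx, hxU⟩ ⟨z, hz, hzV⟩
    obtain ⟨s, hs, hs'⟩ := hVmem p hp hpV
    obtain ⟨q, hq, hqb, hq0⟩ := hUmem p hp hpU s hs
    exact absurd (hs' q hq hqb) hq0

/-- leaf ISO-D -/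
theorem statD (hA : StatA) (hB : StatB) (hC : StatC) : StatD := by
  intro F h hc h0
  have hd := dense_ne h hc h0 hA hC
  refine ⟨?_, hd⟩
  intro z hz
  obtain ⟨r, G, hG⟩ := hA F h z hz
  obtain ⟨han, ⟨V, hV, hVe⟩, hcr⟩ := hC F h z r G hG
  obtain ⟨hne, -⟩ := near_ne h hC hG (hd z hz)
  obtain ⟨ρ, hρ, hρ'⟩ := hB _ V r hG.pos han hV hVe hne
  obtain ⟨ε, hε, hn⟩ := hG.nhd (min ρ r) (lt_min hρ hG.pos) (min_le_right _ _)
  refine ⟨ε, hε, ?_⟩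
  intro y hyb hyz hy
  obtain ⟨w, hw, hwy⟩ := hn y ⟨hy.1.1.le, hy.1.2⟩ hyb
  have hw0 : w ≠ 0 := by
    rintro rfl
    exact hyz (by rw [← hwy, hG.zero])
  have hwn : ‖w‖ < min ρ r := by simpa using hw
  have hwr : w ∈ Metric.ball (0 : ℂ) r := by
    simpa using lt_of_lt_of_le hwn (min_le_right _ _)
  refine hρ' w hw0 (lt_of_lt_of_le hwn (min_le_left _ _)) ⟨?_, ?_⟩
  · show ww F 0 1 (xx G w) = 0
    rw [hwy]; exact hy.2.1
  · exact hcr w hwr (by rw [hwy]; exact hy)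

end Pool.Agent.Helper99.RS
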